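import Pool.Agent.Lib.MP_cdd7b4_an.MX.Iface

set_option autoImplicit false

/-! # EFRON: the Efron-Stein inequality -/

namespace Pool.Agent.Lib.MP_cdd7b4_an.MX.H21

open Pool.Agent.Lib.MP_cdd7b4_an.H80 (av av_equiv av_const av_add av_sub av_mono av_nonneg
  av_sq_le_av_sq av_const_mul av_mul_const av_sum)
open scoped BigOperators

/-- The variance about any constant. -/
theorem av_sub_sq (Q : Type) [Fintype Q] [Nonempty Q] (f : Q → ℝ) (c : ℝ) :
    av (fun q => (f q - c) ^ 2) = av (fun q => (f q - av f) ^ 2) + (av f - c) ^ 2 := by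
  have h1 : (fun q => (f q - c) ^ 2) = fun q => ((f q - av f) ^ 2 +
      (2 * (av f - c)) * (f q - av f)) + (av f - c) ^ 2 := by
    funext q; ring
  have h2 : av (fun q => f q - av f) = 0 := by
    rw [av_sub f (fun _ => av f), av_const, sub_self]
  rw [h1, av_add (fun q => (f q - av f) ^ 2 + (2 * (av f - c)) * (f q - av f))
    (fun _ => (av f - c) ^ 2), av_add (fun q => (f q - av f) ^ 2)
    (fun q => (2 * (av f - c)) * (f q - av f)), av_const, av_const_mul, h2]
  ring

theorem av_cons (Q : Type) [Fintype Q] (n : ℕ) (F : (Fin (n + 1) → Q) → ℝ) :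
    av F = av (fun κ : Fin n → Q => av (fun q => F (Fin.cons q κ))) := by
  have h1 : av (fun z : Q × (Fin n → Q) => F (Fin.cons z.1 z.2)) = av F :=
    av_equiv (Fin.consEquiv (fun _ : Fin (n + 1) => Q)) F
  rw [← h1]
  simp only [av]
  rw [Fintype.card_prod, Fintype.sum_prod_type_right, ← Finset.mul_sum, Nat.cast_mul, mul_inv]
  ring

theorem efron_fin (Q : Type) [Fintype Q] [Nonempty Q] : ∀ (n : ℕ) (f : (Fin n → Q) → ℝ)
    (g : Fin n → (Fin n → Q) → ℝ), (∀ i κ q, g i (Function.update κ i q) = g i κ) →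
    av (fun κ => (f κ - av f) ^ 2) ≤ ∑ i, av (fun κ => (f κ - g i κ) ^ 2) := by
  intro n
  induction n with
  | zero =>
    intro f g _
    have h1 : (fun κ : Fin 0 → Q => (f κ - av f) ^ 2) = fun _ => 0 := by
      funext κ
      have h2 : f = fun _ => f κ := by
        funext κ'
        rw [Subsingleton.elim κ' κ]
      have h3 : av f = f κ := by
        conv_lhs => rw [h2]
        exact av_const _
      rw [h3, sub_self]
      ring
    rw [h1, av_const]
    simp
  | succ n ih =>
    intro f g hg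
    let h : (Fin n → Q) → ℝ := fun κ => av (fun q => f (Fin.cons q κ))
    let g' : Fin n → (Fin n → Q) → ℝ := fun i κ => av (fun q => g i.succ (Fin.cons q κ))
    have hh : av f = av h := av_cons Q n f
    have hg' : ∀ i κ q, g' i (Function.update κ i q) = g' i κ := by
      intro i κ q
      show av (fun q' => g i.succ (Fin.cons q' (Function.update κ i q))) =
        av (fun q' => g i.succ (Fin.cons q' κ))
      congr 1
      funext q'
      rw [Fin.cons_update]
      exact hg i.succ _ q
    have h1 := ih h g' hg'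
    have h2 : av (fun κ => (f κ - av f) ^ 2) =
        av (fun κ => av (fun q => (f (Fin.cons q κ) - h κ) ^ 2)) +
          av (fun κ => (h κ - av h) ^ 2) := by
      rw [av_cons Q n (fun κ => (f κ - av f) ^ 2), ← av_add
        (fun κ => av (fun q => (f (Fin.cons q κ) - h κ) ^ 2)) (fun κ => (h κ - av h) ^ 2)]
      congr 1
      funext κ
      rw [hh]
      exact av_sub_sq Q (fun q => f (Fin.cons q κ)) (av h)
    have h3 : av (fun κ => av (fun q => (f (Fin.cons q κ) - h κ) ^ 2)) ≤
        av (fun κ => (f κ - g 0 κ) ^ 2) := by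
      rw [av_cons Q n (fun κ => (f κ - g 0 κ) ^ 2)]
      refine av_mono fun κ => ?_
      obtain ⟨q0⟩ : Nonempty Q := inferInstance
      have h4 : ∀ q, g 0 (Fin.cons q κ) = g 0 (Fin.cons q0 κ) := by
        intro q
        have h5 := hg 0 (Fin.cons q0 κ) q
        rw [Fin.update_cons_zero] at h5
        exact h5
      have h6 : (fun q => (f (Fin.cons q κ) - g 0 (Fin.cons q κ)) ^ 2) =
          fun q => (f (Fin.cons q κ) - g 0 (Fin.cons q0 κ)) ^ 2 := by
        funext q
        rw [h4 q]
      rw [h6, av_sub_sq Q (fun q => f (Fin.cons q κ)) (g 0 (Fin.cons q0 κ))]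
      have h7 : 0 ≤ (av (fun q => f (Fin.cons q κ)) - g 0 (Fin.cons q0 κ)) ^ 2 := sq_nonneg _
      show av (fun q => (f (Fin.cons q κ) - av (fun q => f (Fin.cons q κ))) ^ 2) ≤ _
      linarith
    have h8 : ∀ i : Fin n, av (fun κ => (h κ - g' i κ) ^ 2) ≤
        av (fun κ => (f κ - g i.succ κ) ^ 2) := by
      intro i
      rw [av_cons Q n (fun κ => (f κ - g i.succ κ) ^ 2)]
      refine av_mono fun κ => ?_
      have h9 : h κ - g' i κ = av (fun q => f (Fin.cons q κ) - g i.succ (Fin.cons q κ)) := by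
        rw [av_sub (fun q => f (Fin.cons q κ)) (fun q => g i.succ (Fin.cons q κ))]
      rw [h9]
      exact av_sq_le_av_sq _
    rw [h2, Fin.sum_univ_succ]
    have h10 : ∑ i, av (fun κ => (h κ - g' i κ) ^ 2) ≤
        ∑ i : Fin n, av (fun κ => (f κ - g i.succ κ) ^ 2) := Finset.sum_le_sum fun i _ => h8 i
    linarith

theorem efron : EfronStatement := by
  intro ι Q _ _ _ _ f g hg
  obtain ⟨e⟩ : Nonempty (ι ≃ Fin (Fintype.card ι)) := ⟨Fintype.equivFin ι⟩
  let E : (Fin (Fintype.card ι) → Q) ≃ (ι → Q) := Equiv.arrowCongr e.symm (Equiv.refl Q)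
  have hE : ∀ κ, E κ = κ ∘ e := fun κ => rfl
  have h1 := efron_fin Q (Fintype.card ι) (fun κ => f (E κ)) (fun i κ => g (e.symm i) (E κ)) (by
    intro i κ q
    have h2 : E (Function.update κ i q) = Function.update (E κ) (e.symm i) q := by
      rw [hE, hE]
      funext j
      by_cases hj : j = e.symm i
      · subst hj
        simp
      · have hj' : e j ≠ i := fun h => hj (by rw [← h, Equiv.symm_apply_apply])
        simp [Function.update_of_ne hj, Function.update_of_ne hj']
    simp only [h2]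
    exact hg (e.symm i) (E κ) q)
  rw [av_equiv E f] at h1
  have h3 : av (fun κ => (f κ - av f) ^ 2) = av (fun κ => (f (E κ) - av f) ^ 2) :=
    (av_equiv E (fun κ => (f κ - av f) ^ 2)).symm
  rw [h3]
  refine h1.trans (le_of_eq ?_)
  rw [← Equiv.sum_comp e.symm (fun i => av (fun κ => (f κ - g i κ) ^ 2))]
  refine Finset.sum_congr rfl fun i _ => ?_
  exact av_equiv E (fun κ => (f κ - g (e.symm i) κ) ^ 2)

end Pool.Agent.Lib.MP_cdd7b4_an.MX.H21
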