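import Pool.Agent.Lib.MP_cdd7b4_an.MX.Iface

set_option autoImplicit false

/-! # MARG: marginals of the uniform distribution, pairs, currying -/

namespace Pool.Agent.Lib.MP_cdd7b4_an.MX.H21

open Pool.Agent.Lib.MP_cdd7b4_an.H80 (av av_equiv av_const)
open scoped BigOperators

theorem av_pair (A B : Type) [Fintype A] [Fintype B] (f : A → B → ℝ) :
    av (fun z : A × B => f z.1 z.2) = av (fun a => av (fun b => f a b)) := by
  simp only [av]
  rw [Fintype.card_prod, Fintype.sum_prod_type, ← Finset.mul_sum, Nat.cast_mul, mul_inv]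
  ring

theorem av_comm (A B : Type) [Fintype A] [Fintype B] (f : A → B → ℝ) :
    av (fun a => av (fun b => f a b)) = av (fun b => av (fun a => f a b)) := by
  simp only [av]
  rw [← Finset.mul_sum, ← Finset.mul_sum, Finset.sum_comm]
  ring

theorem av_emb (ι ι' Q : Type) [Fintype ι] [DecidableEq ι] [Fintype ι'] [DecidableEq ι']
    [Fintype Q] [Nonempty Q] (e : ι ↪ ι') (F : (ι → Q) → ℝ) :
    av (fun κ : ι' → Q => F (κ ∘ e)) = av F := by
  classical
  let p : ι' → Prop := fun x => x ∈ Set.range e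
  let E : (ι' → Q) ≃ ({x // p x} → Q) × ({x // ¬ p x} → Q) :=
    Equiv.piEquivPiSubtypeProd p (fun _ => Q)
  let E2 : (ι → Q) ≃ ({x // p x} → Q) :=
    Equiv.arrowCongr (Equiv.ofInjective e e.injective) (Equiv.refl Q)
  let G : ({x // p x} → Q) → ℝ := fun a => F (E2.symm a)
  have h1 : (fun κ : ι' → Q => F (κ ∘ e)) =
      fun κ => (fun z : ({x // p x} → Q) × ({x // ¬ p x} → Q) => G z.1) (E κ) := by
    funext κ
    show F (κ ∘ e) = F (E2.symm (E κ).1)
    congr 1
  rw [h1, av_equiv E (fun z : ({x // p x} → Q) × ({x // ¬ p x} → Q) => G z.1),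
    av_pair _ _ (fun a _ => G a)]
  have h2 : (fun a : {x // p x} → Q => av (fun _ : {x // ¬ p x} → Q => G a)) = G := by
    funext a
    rw [av_const]
  rw [h2]
  exact av_equiv E2.symm F

theorem marg : MargStatement := by
  refine ⟨?_, ?_, ?_, ?_⟩
  · intro ι ι' Q _ _ _ _ _ _ e F
    exact av_emb ι ι' Q e F
  · intro A B _ _ f
    exact ⟨av_pair A B f, av_comm A B f⟩
  · intro ι ι' Q _ _ _ _ _ f
    rw [← av_pair]
    exact av_equiv (Equiv.sumArrowEquivProdArrow ι ι' Q)
      (fun z : (ι → Q) × (ι' → Q) => f z.1 z.2)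
  · intro ι ι' Q _ _ _ _ _ F
    exact av_equiv (Equiv.curry ι ι' Q) F

end Pool.Agent.Lib.MP_cdd7b4_an.MX.H21
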